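import Pool.Agent.P.MP_7a6434d8_pr.QL.ADefs
import Pool.Agent.P.MP_7a6434d8_pr.QL.QMap
import Pool.Agent.P.MP_7a6434d8_pr.QL.W.CBasic
import Pool.Agent.P.MP_7a6434d8_pr.QL.W.Deg

/-! The net of finite maps of a net of quadrangulations with finite positions. -/

open MeasureTheory Set Filter Topology Metric
open scoped ENNReal

namespace Pool.Agent.QL

open Pool.Agent.LGD Pool.Agent.P.MP_7a6434d8_pr

variable {d : Sph → Sph → ℝ} {μ : Measure ℂ}

/-- close for the metric implies close in the plane, on bounded sets -/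
theorem IsMet.to_eucl (hd : IsMet d) (R : ℝ) {η : ℝ} (hη : 0 < η) :
    ∃ θ > 0, ∀ x y : ℂ, ‖x‖ ≤ R → d x y ≤ θ → ‖y - x‖ ≤ η := by
  have hc : Continuous fun z : ℂ => (z : Sph) := OnePoint.continuous_coe
  have k1 : IsCompact ((closedBall (0 : ℂ) R ×ˢ closedBall (0 : ℂ) (R + η)) ∩
      {p | η ≤ ‖p.2 - p.1‖}) :=
    ((isCompact_closedBall _ _).prod (isCompact_closedBall _ _)).inter_right
      (isClosed_le continuous_const (by fun_prop))
  have c1 := (k1.image (hc.prodMap hc)).isClosed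
  have c2 := ((isCompact_closedBall (0 : ℂ) R).image hc).isClosed.prod
    (OnePoint.isOpenEmbedding_coe.isOpenMap _ (isOpen_ball (x := (0 : ℂ))
      (ε := R + η))).isClosed_compl
  obtain ⟨θ, h1, h2⟩ := top_pos hd (c1.union c2) (by
    rintro p (⟨x, ⟨-, hx⟩, rfl⟩ | ⟨⟨x, hx, e⟩, h⟩) he
    · have : x.1 = x.2 := OnePoint.coe_injective he
      rw [mem_ofPred_eq, this, sub_self, norm_zero] at hx
      exact absurd hη (not_lt.2 hx)
    · exact h ⟨x, closedBall_subset_ball (by linarith) hx, e.trans he⟩)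
  refine ⟨θ, h1, fun x y hx hxy => not_lt.1 fun hlt => h2 x y hxy ?_⟩
  have hx' : x ∈ closedBall (0 : ℂ) R := mem_closedBall_zero_iff.2 hx
  by_cases hy : ‖y‖ < R + η
  · exact Or.inl ⟨(x, y), ⟨⟨hx', mem_closedBall_zero_iff.2 hy.le⟩, hlt.le⟩, rfl⟩
  · refine Or.inr ⟨⟨x, hx', rfl⟩, ?_⟩
    rintro ⟨y', hy', e⟩
    rw [OnePoint.coe_injective e] at hy'
    exact hy (mem_ball_zero_iff.1 hy')

/-- close in the plane implies close for the metric, on bounded sets -/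
theorem IsMet.of_eucl (hd : IsMet d) (R : ℝ) {ε : ℝ} (hε : 0 < ε) :
    ∃ η > 0, ∀ x y : ℂ, ‖x‖ ≤ R → ‖y - x‖ ≤ η → d x y ≤ ε := by
  have hc : Continuous fun z : ℂ => (z : Sph) := OnePoint.continuous_coe
  have k1 : IsCompact ((closedBall (0 : ℂ) R ×ˢ closedBall (0 : ℂ) (R + 1)) ∩
      {p | ε ≤ d p.1 p.2}) :=
    ((isCompact_closedBall _ _).prod (isCompact_closedBall _ _)).inter_right
      (isClosed_le continuous_const (hd.cont.comp (hc.prodMap hc)))
  obtain ⟨a, ha, h1⟩ := k1.exists_forall_le' (a := 0) (f := fun p : ℂ × ℂ => ‖p.2 - p.1‖)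
    (by fun_prop) fun p hp => norm_pos_iff.2 fun e => by
      have h := hp.2
      rw [mem_ofPred_eq, sub_eq_zero.1 e, hd.self] at h
      exact absurd hε (not_lt.2 h)
  refine ⟨min (a / 2) 1, lt_min (half_pos ha) one_pos, fun x y hx hxy => not_lt.1 fun hlt => ?_⟩
  have h2 := hxy.trans (min_le_left _ _)
  have h3 := hxy.trans (min_le_right _ _)
  have h4 : ‖y‖ ≤ R + 1 := by linarith [norm_le_norm_add_norm_sub' y x]
  have := h1 (x, y) ⟨⟨mem_closedBall_zero_iff.2 hx, mem_closedBall_zero_iff.2 h4⟩, hlt.le⟩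
  simp only at this
  linarith

theorem hom_tail_eq {n : ℕ} (q : Quad n) {e e' : Fin (4 * n)} :
    q.tail e = q.tail e' ↔ (toFMap q).σ.SameCycle e e' := Quotient.eq

theorem hom_adj_dist {n : ℕ} (q : Quad n) {e e' : Fin (4 * n)} (h : (toFMap q).Adj e e') :
    q.graph.dist (q.tail e) (q.tail e') ≤ 2 := by
  rcases h with rfl | h | h
  · exact (dist_tail_head q e).trans one_le_two
  · obtain ⟨i, -, rfl⟩ := Equiv.Perm.SameCycle.exists_pow_eq' (f := q.φ) h
    rw [Equiv.Perm.coe_pow, ← deg_mod, SimpleGraph.dist_comm]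
    exact deg_dist q e (Nat.mod_lt _ (by norm_num))
  · rw [(hom_tail_eq q).2 h, SimpleGraph.dist_self]
    exact zero_le_two

theorem hom_adj_dart {n : ℕ} (q : Quad n) {x y : q.Vertex} (h : q.graph.Adj x y) :
    ∃ e, q.tail e = x ∧ q.head e = y := by
  rcases ((SimpleGraph.fromRel_adj _ _ _).1 h).2 with h | ⟨e, h1, h2⟩
  · exact h
  · exact ⟨q.α e, h2, by rw [head_α, h1]⟩

theorem hom_walk_chain {n : ℕ} (q : Quad n) (P : q.Vertex → Prop) {x y : q.Vertex}
    (w : q.graph.Walk x y) (hP : ∀ z ∈ w.support, P z) (e e' : Fin (4 * n)) (he : q.tail e = x)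
    (he' : q.tail e' = y) :
    Relation.ReflTransGen (fun a b => (toFMap q).Adj a b ∧ P (q.tail b)) e e' := by
  induction w generalizing e with
  | nil => exact .single ⟨.inr (.inr ((hom_tail_eq q).1 (he.trans he'.symm))),
      he' ▸ hP _ (by simp)⟩
  | cons h w ih =>
    obtain ⟨c, h1, h2⟩ := hom_adj_dart q h
    refine .head ⟨.inr (.inr ((hom_tail_eq q).1 (he.trans h1.symm))), h1 ▸ hP _ (by simp)⟩ ?_
    refine .head (b := q.α c) ⟨.inl rfl, ?_⟩ (ih (fun z hz => hP z (by simp [hz])) _ h2 he')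
    rw [tail_α, h2]
    exact hP _ (by simp)

theorem tail_eq_iff {n : ℕ} (q : Quad n) {e e' : Fin (4 * n)} :
    q.tail e = q.tail e' ↔ (toFMap q).σ.SameCycle e e' := hom_tail_eq q

theorem adj_dist {n : ℕ} (q : Quad n) {e e' : Fin (4 * n)} (h : (toFMap q).Adj e e') :
    q.graph.dist (q.tail e) (q.tail e') ≤ 2 := hom_adj_dist q h

theorem adj_dart {n : ℕ} (q : Quad n) {x y : q.Vertex} (h : q.graph.Adj x y) :
    ∃ e, q.tail e = x ∧ q.head e = y := hom_adj_dart q h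

theorem walk_chain {n : ℕ} (q : Quad n) (P : q.Vertex → Prop) {x y : q.Vertex}
    (w : q.graph.Walk x y) (hP : ∀ z ∈ w.support, P z) (e e' : Fin (4 * n)) (he : q.tail e = x)
    (he' : q.tail e' = y) :
    Relation.ReflTransGen (fun a b => (toFMap q).Adj a b ∧ P (q.tail b)) e e' :=
  hom_walk_chain q P w hP e e' he he'

namespace Net

variable (N : Net) (hd : IsMet d) (hG : N.Geo d μ) (p : ∀ m, (N.q m).Vertex → ℂ)
  (hp : ∀ m x, N.p m x = p m x)

include hd hG hp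

theorem toF_mesh (R η : ℝ) (hη : 0 < η) : ∀ᶠ m in (N.U : Filter ℕ), ∀ e e',
    ‖p m ((N.q m).tail e)‖ ≤ R → (toFMap (N.q m)).Adj e e' →
    ‖p m ((N.q m).tail e') - p m ((N.q m).tail e)‖ ≤ η := by
  obtain ⟨θ, h1, h2⟩ := hd.to_eucl R hη
  filter_upwards [hG.cn_le (ε := θ / 4) (by positivity), hG.dist _ (half_pos h1)]
    with m h3 h4 e e' he ha
  refine h2 _ _ he ?_
  have h5 : (((N.q m).graph.dist ((N.q m).tail e) ((N.q m).tail e') : ℕ) : ℝ) ≤ 2 := by
    exact_mod_cast hom_adj_dist _ ha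
  have h6 := (abs_le.1 (h4 ((N.q m).tail e) ((N.q m).tail e'))).1
  rw [hp, hp] at h6
  nlinarith [cn_nonneg (N.n m)]

theorem toF_dense (x : ℂ) (η : ℝ) (hη : 0 < η) : ∀ᶠ m in (N.U : Filter ℕ),
    ∃ e, ‖p m ((N.q m).tail e) - x‖ ≤ η := by
  obtain ⟨θ, h1, h2⟩ := hd.to_eucl ‖x‖ hη
  filter_upwards [hG.dense _ h1] with m h3
  obtain ⟨y, hy⟩ := h3 x
  refine ⟨Quotient.out y, h2 _ _ le_rfl ?_⟩
  rwa [tail_out, ← hp]

theorem toF_lift (R η : ℝ) (hη : 0 < η) : ∃ η' : ℝ, 0 < η' ∧ ∀ᶠ m in (N.U : Filter ℕ), ∀ e e',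
    ‖p m ((N.q m).tail e)‖ ≤ R → ‖p m ((N.q m).tail e') - p m ((N.q m).tail e)‖ ≤ η' →
    Relation.ReflTransGen (fun a b => (toFMap (N.q m)).Adj a b ∧
      ‖p m ((N.q m).tail b) - p m ((N.q m).tail e)‖ ≤ η) e e' := by
  obtain ⟨θ, h1, h2⟩ := hd.to_eucl R hη
  obtain ⟨η', h3, h4⟩ := hd.of_eucl R (ε := θ / 4) (by positivity)
  refine ⟨η', h3, ?_⟩
  filter_upwards [hG.dist (θ / 4) (by positivity)] with m h5 e e' he hee
  obtain ⟨w, hw⟩ := (graph_connected (N.q m)).exists_walk_length_eq_dist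
    ((N.q m).tail e) ((N.q m).tail e')
  refine hom_walk_chain (N.q m) (fun z => ‖p m z - p m ((N.q m).tail e)‖ ≤ η) w (fun z hz => ?_)
    e e' rfl rfl
  classical
  refine h2 _ _ he ?_
  have h6 : (((N.q m).graph.dist ((N.q m).tail e) z : ℕ) : ℝ) ≤
      (N.q m).graph.dist ((N.q m).tail e) ((N.q m).tail e') := by
    rw [← hw]
    exact_mod_cast (SimpleGraph.dist_le _).trans (w.length_takeUntil_le_length hz)
  have h7 := (abs_le.1 (h5 ((N.q m).tail e) z)).1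
  have h8 := (abs_le.1 (h5 ((N.q m).tail e) ((N.q m).tail e'))).2
  have h9 := h4 _ _ he hee
  rw [hp, hp] at h7 h8
  nlinarith [cn_nonneg (N.n m)]

/-- The net of finite maps, with darts positioned at their tails. -/
noncomputable def toF (κ : ℕ → ℝ) (hκ : ∀ m, 0 < κ m) : FNet where
  U := N.U
  M m := toFMap (N.q m)
  p m e := p m ((N.q m).tail e)
  κ := κ
  κ_pos := hκ
  mesh := N.toF_mesh hd hG p hp
  dense := N.toF_dense hd hG p hp
  lift := N.toF_lift hd hG p hp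

end Net

end Pool.Agent.QL
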