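import Pool.Agent.P.MP_7a6434d8_pr.QL.NCond
import Pool.Agent.P.MP_7a6434d8_pr.QL.Frames
import Pool.Agent.P.MP_7a6434d8_pr.QL.Sph.Defs

/-! From homogeneity on rational squares to the energy of linear functions on rectangles. -/

open MeasureTheory Set Filter Topology Metric
open scoped ENNReal

namespace Pool.Agent.QL

open Pool.Agent.LGD

/-- the inverse frame -/
noncomputable def Fr.hsymm (F : Fr) : Fr :=
  ⟨(-F.z / F.a, F.a⁻¹), F.2.1.neg.div F.2.2.1, F.2.2.1.inv, inv_ne_zero F.a_ne⟩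

theorem Fr.act_hsymm (F : Fr) (i : Idx) : F.act (F.hsymm.act i) = i := by
  rw [← Fr.comp_act]
  have h : (F.comp F.hsymm).inv = id := funext fun x => by
    have h1 := F.a_ne
    rw [Fr.comp_inv]
    simp only [Fr.inv, Fr.hsymm, Fr.z, Fr.a, unaff, id] at h1 ⊢
    field_simp
    ring
  refine Subtype.ext ?_
  change i.1.pre (F.comp F.hsymm).inv = i.1
  rw [h]
  simp [Data.pre]

theorem Fr.hom_closure (F : Fr) (K : Set ℂ) : closure (F.inv ⁻¹' K) = F.inv ⁻¹' closure K := by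
  rw [← F.image_eq, ← F.image_eq, F.closure_image]

theorem Fr.hom_sub (F : Fr) {K S : Set ℂ} : F.inv ⁻¹' K ⊆ F.inv ⁻¹' S ↔ K ⊆ S :=
  preimage_subset_preimage_iff fun x _ => ⟨F.map x, F.inv_map x⟩

theorem fs_act (F : Fr) (s : Idx → ℝ≥0∞) (f : ℂ → ℝ) (S : Set ℂ) :
    FS (fun i => s (F.act i)) f S = FS s (fun x => f (F.inv x)) (F.inv ⁻¹' S) := by
  have hs : Function.Surjective F.act := fun i => ⟨_, F.act_hsymm i⟩
  unfold FS
  refine hs.iSup_congr F.act fun i => ?_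
  have e1 : closure (F.act i).1.1 ⊆ F.inv ⁻¹' S ↔ closure i.1.1 ⊆ S := by
    change closure (F.inv ⁻¹' i.1.1) ⊆ _ ↔ _
    rw [F.hom_closure, F.hom_sub]
  have e2 : (∀ c ∈ (F.act i).1.2, closure c.1 ⊆ F.inv ⁻¹' S ∧
      ∀ z ∈ closure c.1, f (F.inv z) ∈ Ioo c.2.1 c.2.2) ↔
      ∀ c ∈ i.1.2, closure c.1 ⊆ S ∧ ∀ z ∈ closure c.1, f z ∈ Ioo c.2.1 c.2.2 := by
    change (∀ c ∈ i.1.2.map fun c => (F.inv ⁻¹' c.1, c.2), _) ↔ _
    rw [List.forall_mem_map]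
    refine forall₂_congr fun c _ => ?_
    simp only [F.hom_closure, F.hom_sub]
    refine and_congr_right fun _ => ⟨fun h z hz => ?_, fun h z hz => h _ hz⟩
    have := h (F.map z) (by rwa [mem_preimage, F.inv_map])
    rwa [F.inv_map] at this
  simp only [e1, e2]

/-- the square of centre `(x, y)` and scale `ρ` -/
def hsq (x y ρ : ℝ) : Set ℂ :=
  orect (x - 14 / 5 * ρ) (x + 14 / 5 * ρ) (y - 14 / 5 * ρ) (y + 14 / 5 * ρ)

/-- squares far from the marked points -/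
def SqAdm (x y ρ : ℝ) : Prop := 0 < ρ ∧ 4 * ρ < ‖(⟨x, y⟩ : ℂ)‖ ∧ 4 * ρ < ‖(⟨x, y⟩ : ℂ) - 1‖

theorem hom_open (x₀ x₁ y₀ y₁ : ℝ) : IsOpen (orect x₀ x₁ y₀ y₁) :=
  (isOpen_Ioo.preimage Complex.continuous_re).inter (isOpen_Ioo.preimage Complex.continuous_im)

theorem hom_compact (x₀ x₁ y₀ y₁ : ℝ) : IsCompact (crect x₀ x₁ y₀ y₁) :=
  isCompact_Icc.reProdIm isCompact_Icc

theorem hom_oc (x₀ x₁ y₀ y₁ : ℝ) : orect x₀ x₁ y₀ y₁ ⊆ crect x₀ x₁ y₀ y₁ :=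
  fun _ h => ⟨Ioo_subset_Icc_self h.1, Ioo_subset_Icc_self h.2⟩

theorem lin_cont (e : ℂ) : Continuous (lin e) := by unfold lin; fun_prop

namespace FNet

variable (N : FNet)

/-- inner energy of linear functions on admissible rational squares -/
def SqHom (a : ℝ) : Prop :=
  ∀ e, IsQ e → ∀ x y ρ : ℚ, SqAdm x y ρ →
    ⨆ (K : Set ℂ) (_ : IsCompact K) (_ : K ⊆ hsq x y ρ), N.F (lin e) K =
      ENNReal.ofReal (a * ‖e‖ ^ 2 * (28 / 5 * ρ) ^ 2)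

theorem sqHom_of_hom {s : Idx → ℝ≥0∞} (h : N.Real1 s) {a : ℝ}
    (H : ∀ F : Fr, F.Adm → Hom1 a fun i => s (F.act i)) : N.SqHom a := by
  intro e he x y ρ ⟨hρ, h0, h1⟩
  have hq : IsQ ((ρ : ℝ) : ℂ) := isQ_ofReal_iff.2 ⟨ρ, rfl⟩
  have hρ' : (((ρ : ℝ)) : ℂ) ≠ 0 := by exact_mod_cast hρ.ne'
  let F : Fr := ⟨(⟨x, y⟩, ((ρ : ℝ) : ℂ)), isQ_iff.2 ⟨⟨x, rfl⟩, ⟨y, rfl⟩⟩, hq, hρ'⟩
  have hn : ∀ w ∈ F.map '' closedBall 0 4, ‖w - ⟨x, y⟩‖ ≤ 4 * ρ := by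
    rintro _ ⟨v, hv, rfl⟩
    have : F.map v - ⟨x, y⟩ = ((ρ : ℝ) : ℂ) * v := add_sub_cancel_right _ _
    rw [this, norm_mul, Complex.norm_real, Real.norm_of_nonneg hρ.le]
    nlinarith [mem_closedBall_zero_iff.1 hv]
  have hF : F.Adm := ⟨fun hh => by
      have := hn _ hh
      rw [zero_sub, norm_neg] at this
      linarith, fun hh => by
      have := hn _ hh
      rw [norm_sub_rev] at this
      linarith⟩
  have k := H F hF (rotF 0) (mapsTo_rotF 0) _ (hq.mul he)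
  have e0 : F.comp (rotF 0) = F := Fr.ext' (by simp [Fr.comp_z, rotF_z, aff])
    (by simp [Fr.comp_a, rotF_a])
  simp only [← Fr.comp_act, e0] at k
  have hi : ∀ w : ℂ, (F.inv w).re = (w.re - x) / ρ ∧ (F.inv w).im = (w.im - y) / ρ := fun w =>
    ⟨by simp [Fr.inv, unaff, F, Fr.z, Fr.a, Complex.div_ofReal_re, -Complex.ofReal_ratCast],
      by simp [Fr.inv, unaff, F, Fr.z, Fr.a, Complex.div_ofReal_im, -Complex.ofReal_ratCast]⟩
  have e1 : F.inv ⁻¹' S0 = hsq x y ρ := by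
    ext w
    simp only [S0, hsq, orect, mem_preimage, mem_ofPred_eq, mem_Ioo, hi, lt_div_iff₀ hρ,
      div_lt_iff₀ hρ]
    constructor <;> rintro ⟨⟨a1, a2⟩, a3, a4⟩ <;> refine ⟨⟨?_, ?_⟩, ?_, ?_⟩ <;> linarith
  have e2 : (fun w => lin (((ρ : ℝ) : ℂ) * e) (F.inv w)) =
      fun w => 1 * lin e w + -lin e ⟨x, y⟩ := by
    ext w
    have := hρ.ne'
    simp only [lin, hi, Complex.re_ofReal_mul, Complex.im_ofReal_mul]
    field_simp
    ring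
  have c2 : Continuous fun w => 1 * lin e w + -lin e ⟨x, y⟩ :=
    (continuous_const.mul (lin_cont e)).add continuous_const
  have o2 : IsOpen (hsq x y ρ) := hom_open _ _ _ _
  rw [fs_act, e1, e2, N.fs_eq h c2 o2] at k
  have e3 : ∀ K, N.F (fun w => 1 * lin e w + -lin e ⟨x, y⟩) K = N.F (lin e) K := fun K => by
    rw [N.F_affine _ _ _ _ one_ne_zero, one_pow, ENNReal.ofReal_one, one_mul]
  simp only [e3] at k
  rw [k, norm_mul, Complex.norm_real, Real.norm_of_nonneg hρ.le]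
  congr 1
  ring

theorem F_two (f : ℂ → ℝ) {A B S : Set ℂ} (hA : A ⊆ S) (hB : B ⊆ S) (h : Disjoint A B) :
    N.F f A + N.F f B ≤ N.F f S := by
  have := N.F_superadd f (Finset.univ : Finset Bool) (fun b => if b then A else B) S
    (by rintro (_ | _) - <;> simpa) (by rintro (_ | _) - (_ | _) - hn <;> simp_all [h.symm])
  simpa using this

theorem hom_cell {h x : ℝ} (hh : 0 < h) {i j : ℕ} {t : ℝ} (h1 : t ∈ Ioo (x + i * h) (x + (i + 1) * h))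
    (h2 : t ∈ Ioo (x + j * h) (x + (j + 1) * h)) : i = j := by
  have a1 : (i : ℝ) < j + 1 := lt_of_mul_lt_mul_right (by linarith [h1.1, h2.2]) hh.le
  have a2 : (j : ℝ) < i + 1 := lt_of_mul_lt_mul_right (by linarith [h1.2, h2.1]) hh.le
  norm_cast at a1 a2
  omega

/-- lower bound by a grid of small squares -/
theorem SqHom.lower {N : FNet} {a : ℝ} (H : N.SqHom a) (ha : 0 ≤ a) {e : ℂ} (he : IsQ e)
    {s₀ s₁ t₀ t₁ : ℝ} (hs : s₀ < s₁) (ht : t₀ < t₁) (h01 : crect s₀ s₁ t₀ t₁ ⊆ {0, 1}ᶜ) :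
    ENNReal.ofReal (a * ‖e‖ ^ 2 * ((s₁ - s₀) * (t₁ - t₀))) ≤ N.F (lin e) (orect s₀ s₁ t₀ t₁) := by
  obtain ⟨δ, hδ, hd⟩ := (hom_compact s₀ s₁ t₀ t₁).exists_forall_le' (a := 0)
    (f := fun z => min ‖z‖ ‖z - 1‖) (by fun_prop) fun z hz => by
      have := h01 hz
      simp only [mem_compl_iff, mem_insert_iff, mem_singleton_iff, not_or] at this
      exact lt_min (norm_pos_iff.2 this.1) (norm_pos_iff.2 (sub_ne_zero.2 this.2))
  have hc : Continuous fun ε : ℝ =>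
      ENNReal.ofReal (a * ‖e‖ ^ 2 * ((s₁ - s₀ - 2 * ε) * (t₁ - t₀ - 2 * ε))) :=
    ENNReal.continuous_ofReal.comp (by fun_prop)
  have hl := (hc.tendsto 0).mono_left (nhdsWithin_le_nhds (s := Ioi 0))
  simp only [mul_zero, sub_zero] at hl
  refine le_of_tendsto hl ?_
  filter_upwards [Ioo_mem_nhdsGT (show 0 < min ((s₁ - s₀) / 2) ((t₁ - t₀) / 2) from
    lt_min (by linarith) (by linarith))] with ε ⟨hε, hε'⟩
  have b1 := hε'.trans_le (min_le_left _ _)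
  have b2 := hε'.trans_le (min_le_right _ _)
  obtain ⟨x, hx1, hx2⟩ := exists_rat_btwn (show s₀ < s₀ + ε by linarith)
  obtain ⟨y, hy1, hy2⟩ := exists_rat_btwn (show t₀ < t₀ + ε by linarith)
  obtain ⟨ρ, hρ, hρ'⟩ := exists_rat_btwn (show 0 < min ε δ / 6 by positivity)
  have r1 : 6 * (ρ : ℝ) < ε := by linarith [min_le_left ε δ]
  have r2 : 6 * (ρ : ℝ) < δ := by linarith [min_le_right ε δ]
  set h : ℝ := 28 / 5 * ρ with hh
  have h0 : 0 < h := by positivity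
  set k := ⌊(s₁ - x) / h⌋₊
  set l := ⌊(t₁ - y) / h⌋₊
  have k1 : (k : ℝ) * h ≤ s₁ - x := (le_div_iff₀ h0).1 (Nat.floor_le (div_nonneg (by linarith) h0.le))
  have l1 : (l : ℝ) * h ≤ t₁ - y := (le_div_iff₀ h0).1 (Nat.floor_le (div_nonneg (by linarith) h0.le))
  have k2 : s₁ - x < (k + 1 : ℝ) * h := (div_lt_iff₀ h0).1 (Nat.lt_floor_add_one _)
  have l2 : t₁ - y < (l + 1 : ℝ) * h := (div_lt_iff₀ h0).1 (Nat.lt_floor_add_one _)
  let T : ℕ × ℕ → Set ℂ := fun c =>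
    orect (x + c.1 * h) (x + (c.1 + 1) * h) (y + c.2 * h) (y + (c.2 + 1) * h)
  have hT : ∀ c ∈ Finset.range k ×ˢ Finset.range l, T c ⊆ orect s₀ s₁ t₀ t₁ := fun c hc z hz => by
    obtain ⟨c1, c2⟩ := Finset.mem_product.1 hc
    have c3 : (c.1 + 1 : ℝ) ≤ k := by exact_mod_cast Finset.mem_range.1 c1
    have c4 : (c.2 + 1 : ℝ) ≤ l := by exact_mod_cast Finset.mem_range.1 c2
    have c5 : 0 ≤ (c.1 : ℝ) * h := by positivity
    have c6 : 0 ≤ (c.2 : ℝ) * h := by positivity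
    obtain ⟨⟨z1, z2⟩, z3, z4⟩ := hz
    exact ⟨⟨by linarith, by nlinarith⟩, by linarith, by nlinarith⟩
  refine le_trans ?_ (N.F_superadd (lin e) _ T _ hT fun c _ c' _ hn =>
    disjoint_left.2 fun z h1 h2 => hn (Prod.ext (hom_cell h0 h1.1 h2.1) (hom_cell h0 h1.2 h2.2)))
  have hc : ∀ c ∈ Finset.range k ×ˢ Finset.range l,
      ENNReal.ofReal (a * ‖e‖ ^ 2 * h ^ 2) ≤ N.F (lin e) (T c) := fun c hc => by
    have e1 : hsq ((x + (c.1 + 1 / 2) * (28 / 5 * ρ) : ℚ) : ℝ)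
        ((y + (c.2 + 1 / 2) * (28 / 5 * ρ) : ℚ) : ℝ) ρ = T c := by
      simp only [hsq, T, hh]
      push_cast
      congr 1 <;> ring
    have m1 : (⟨((x + (c.1 + 1 / 2) * (28 / 5 * ρ) : ℚ) : ℝ),
        ((y + (c.2 + 1 / 2) * (28 / 5 * ρ) : ℚ) : ℝ)⟩ : ℂ) ∈ T c := by
      rw [← e1]
      refine ⟨⟨?_, ?_⟩, ?_, ?_⟩ <;> simp only <;> linarith
    have m2 := hd _ (hom_oc _ _ _ _ (hT c hc m1))
    rw [← H e he _ _ ρ ⟨hρ, by linarith [m2.trans (min_le_left _ _)],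
      by linarith [m2.trans (min_le_right _ _)]⟩, e1]
    exact iSup₂_le fun K _ => iSup_le fun hK => N.F_mono _ hK
  refine le_trans ?_ (Finset.card_nsmul_le_sum _ _ _ hc)
  rw [Finset.card_product, Finset.card_range, Finset.card_range, nsmul_eq_mul,
    ← ENNReal.ofReal_natCast, ← ENNReal.ofReal_mul (Nat.cast_nonneg _)]
  refine ENNReal.ofReal_le_ofReal ?_
  have : (s₁ - s₀ - 2 * ε) * (t₁ - t₀ - 2 * ε) ≤ (k * h) * (l * h) :=
    mul_le_mul (by linarith) (by linarith) (by linarith) (by positivity)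
  calc _ ≤ a * ‖e‖ ^ 2 * ((k * h) * (l * h)) := mul_le_mul_of_nonneg_left this (by positivity)
    _ = _ := by push_cast; ring

theorem hom_cancel {X Y Z : ℝ≥0∞} {u v : ℝ} (hu : 0 ≤ u) (hv : 0 ≤ v) (h : X + Y ≤ Z)
    (hZ : Z ≤ ENNReal.ofReal (u + v)) (hY : ENNReal.ofReal v ≤ Y) : X ≤ ENNReal.ofReal u := by
  rw [ENNReal.ofReal_add hu hv] at hZ
  exact ENNReal.le_of_add_le_add_right ENNReal.ofReal_ne_top
    ((add_le_add le_rfl hY).trans (h.trans hZ))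

theorem SqAdm.sub {x y ρ : ℝ} (h : SqAdm x y ρ) : hsq x y ρ ⊆ {0, 1}ᶜ := by
  obtain ⟨hρ, h0, h1⟩ := h
  have key : ∀ w ∈ hsq x y ρ, ‖(⟨x, y⟩ : ℂ) - w‖ ≤ 4 * ρ := fun w ⟨⟨a1, a2⟩, a3, a4⟩ => by
    refine abs_le_of_sq_le_sq' ?_ (by linarith) |>.2
    rw [Complex.sq_norm, Complex.normSq_apply]
    simp only [Complex.sub_re, Complex.sub_im]
    nlinarith
  rintro w hw (rfl | rfl)
  · have := key _ hw
    rw [sub_zero] at this
    linarith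
  · linarith [key _ hw]

/-- linear functions on the rectangles of an admissible square -/
theorem SqHom.lin {N : FNet} {a : ℝ} (H : N.SqHom a) (ha : 0 ≤ a) {x y ρ : ℚ}
    (h : SqAdm x y ρ) : N.Lin a (hsq x y ρ) := by
  intro e he s₀ s₁ t₀ t₁ hs ht hsub
  have hq : IsQ e := by
    rcases he with rfl | rfl | rfl | rfl
    exacts [isQ_one, isQ_I, isQ_one.add isQ_I, isQ_one.sub isQ_I]
  have hno := SqAdm.sub h
  refine le_antisymm ?_ (H.lower ha hq hs ht (hsub.trans hno))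
  obtain ⟨⟨p1, -⟩, p2, -⟩ := hsub (show (⟨s₀, t₀⟩ : ℂ) ∈ _ from ⟨⟨le_rfl, hs.le⟩, le_rfl, ht.le⟩)
  obtain ⟨⟨-, p3⟩, -, p4⟩ := hsub (show (⟨s₁, t₁⟩ : ℂ) ∈ _ from ⟨⟨hs.le, le_rfl⟩, ht.le, le_rfl⟩)
  simp only at p1 p2 p3 p4
  set c := a * ‖e‖ ^ 2 with hc
  have c0 : 0 ≤ c := by positivity
  set r : ℝ := 14 / 5 * ρ with hr
  have r0 : 0 < r := by have := h.1; positivity
  have hcont : Continuous fun ε : ℝ =>
      ENNReal.ofReal (c * ((s₁ - s₀) * (t₁ - t₀)) + c * (8 * r * ε)) :=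
    ENNReal.continuous_ofReal.comp (by fun_prop)
  have hl := (hcont.tendsto 0).mono_left (nhdsWithin_le_nhds (s := Ioi 0))
  simp only [mul_zero, add_zero] at hl
  refine ge_of_tendsto hl ?_
  filter_upwards [Ioo_mem_nhdsGT (show 0 < min (min (s₀ - (x - r)) (t₀ - (y - r)))
    (min (x + r - s₁) (y + r - t₁)) from lt_min (lt_min (by linarith) (by linarith))
      (lt_min (by linarith) (by linarith)))] with ε ⟨hε, hε'⟩
  simp only [lt_min_iff] at hε'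
  obtain ⟨⟨b1, b2⟩, b3, b4⟩ := hε'
  have low : ∀ u₀ u₁ v₀ v₁ : ℝ, x - r + ε ≤ u₀ → u₀ < u₁ → u₁ ≤ x + r - ε → y - r + ε ≤ v₀ →
      v₀ < v₁ → v₁ ≤ y + r - ε →
      ENNReal.ofReal (c * ((u₁ - u₀) * (v₁ - v₀))) ≤ N.F (QL.lin e) (orect u₀ u₁ v₀ v₁) :=
    fun u₀ u₁ v₀ v₁ q1 q2 q3 q4 q5 q6 => H.lower ha hq q2 q5 fun z ⟨⟨a1, a2⟩, a3, a4⟩ =>
      hno ⟨⟨by linarith, by linarith⟩, by linarith, by linarith⟩
  have hη : 0 ≤ c * (8 * r * ε) := by positivity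
  have cutx : ∀ u₀ u u₁ v₀ v₁ : ℝ, x - r + ε ≤ u₀ → u₀ < u → u < u₁ → u₁ ≤ x + r - ε →
      y - r + ε ≤ v₀ → v₀ < v₁ → v₁ ≤ y + r - ε →
      N.F (QL.lin e) (orect u₀ u₁ v₀ v₁) ≤
        ENNReal.ofReal (c * ((u₁ - u₀) * (v₁ - v₀)) + c * (8 * r * ε)) →
      N.F (QL.lin e) (orect u₀ u v₀ v₁) ≤
        ENNReal.ofReal (c * ((u - u₀) * (v₁ - v₀)) + c * (8 * r * ε)) ∧
      N.F (QL.lin e) (orect u u₁ v₀ v₁) ≤
        ENNReal.ofReal (c * ((u₁ - u) * (v₁ - v₀)) + c * (8 * r * ε)) := by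
    intro u₀ u u₁ v₀ v₁ q1 q2 q3 q4 q5 q6 q7 hb
    have w := N.F_two (QL.lin e) (A := orect u₀ u v₀ v₁) (B := orect u u₁ v₀ v₁)
      (S := orect u₀ u₁ v₀ v₁) (fun z hz => ⟨⟨hz.1.1, hz.1.2.trans q3⟩, hz.2⟩)
      (fun z hz => ⟨⟨q2.trans hz.1.1, hz.1.2⟩, hz.2⟩)
      (disjoint_left.2 fun z h1 h2 => lt_asymm h1.1.2 h2.1.1)
    have n1 : 0 ≤ c * ((u - u₀) * (v₁ - v₀)) :=
      mul_nonneg c0 (mul_nonneg (by linarith) (by linarith))
    have n2 : 0 ≤ c * ((u₁ - u) * (v₁ - v₀)) :=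
      mul_nonneg c0 (mul_nonneg (by linarith) (by linarith))
    exact ⟨hom_cancel (by linarith) n2 w (hb.trans_eq (by congr 1; ring))
        (low _ _ _ _ (by linarith) q3 q4 q5 q6 q7),
      hom_cancel (by linarith) n1 ((add_comm _ _).trans_le w) (hb.trans_eq (by congr 1; ring))
        (low _ _ _ _ q1 q2 (by linarith) q5 q6 q7)⟩
  have cuty : ∀ u₀ u₁ v₀ v v₁ : ℝ, x - r + ε ≤ u₀ → u₀ < u₁ → u₁ ≤ x + r - ε →
      y - r + ε ≤ v₀ → v₀ < v → v < v₁ → v₁ ≤ y + r - ε →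
      N.F (QL.lin e) (orect u₀ u₁ v₀ v₁) ≤
        ENNReal.ofReal (c * ((u₁ - u₀) * (v₁ - v₀)) + c * (8 * r * ε)) →
      N.F (QL.lin e) (orect u₀ u₁ v₀ v) ≤
        ENNReal.ofReal (c * ((u₁ - u₀) * (v - v₀)) + c * (8 * r * ε)) ∧
      N.F (QL.lin e) (orect u₀ u₁ v v₁) ≤
        ENNReal.ofReal (c * ((u₁ - u₀) * (v₁ - v)) + c * (8 * r * ε)) := by
    intro u₀ u₁ v₀ v v₁ q1 q2 q3 q4 q5 q6 q7 hb
    have w := N.F_two (QL.lin e) (A := orect u₀ u₁ v₀ v) (B := orect u₀ u₁ v v₁)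
      (S := orect u₀ u₁ v₀ v₁) (fun z hz => ⟨hz.1, hz.2.1, hz.2.2.trans q6⟩)
      (fun z hz => ⟨hz.1, q5.trans hz.2.1, hz.2.2⟩)
      (disjoint_left.2 fun z h1 h2 => lt_asymm h1.2.2 h2.2.1)
    have n1 : 0 ≤ c * ((u₁ - u₀) * (v - v₀)) :=
      mul_nonneg c0 (mul_nonneg (by linarith) (by linarith))
    have n2 : 0 ≤ c * ((u₁ - u₀) * (v₁ - v)) :=
      mul_nonneg c0 (mul_nonneg (by linarith) (by linarith))
    exact ⟨hom_cancel (by linarith) n2 w (hb.trans_eq (by congr 1; ring))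
        (low _ _ _ _ q1 q2 q3 (by linarith) q6 q7),
      hom_cancel (by linarith) n1 ((add_comm _ _).trans_le w) (hb.trans_eq (by congr 1; ring))
        (low _ _ _ _ q1 q2 q3 q4 q5 (by linarith))⟩
  have big : N.F (QL.lin e) (orect (x - r + ε) (x + r - ε) (y - r + ε) (y + r - ε)) ≤
      ENNReal.ofReal (c * ((x + r - ε - (x - r + ε)) * (y + r - ε - (y - r + ε))) +
        c * (8 * r * ε)) := by
    refine (N.F_mono _ (hom_oc _ _ _ _)).trans (le_trans (le_trans ?_ (H e hq x y ρ h).le) ?_)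
    · exact le_iSup₂_of_le _ (hom_compact _ _ _ _) (le_iSup_of_le (fun z ⟨⟨a1, a2⟩, a3, a4⟩ =>
        ⟨⟨by linarith, by linarith⟩, by linarith, by linarith⟩) le_rfl)
    · refine ENNReal.ofReal_le_ofReal ?_
      have : (28 / 5 * ρ : ℝ) = 2 * r := by rw [hr]; ring
      rw [this, ← hc, ← mul_add]
      exact mul_le_mul_of_nonneg_left (by nlinarith [sq_nonneg ε]) c0
  have s1 := (cutx _ s₀ _ _ _ le_rfl (by linarith) (by linarith) le_rfl le_rfl (by linarith)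
    le_rfl big).2
  have s2 := (cutx _ s₁ _ _ _ (by linarith) hs (by linarith) le_rfl le_rfl (by linarith)
    le_rfl s1).1
  have s3 := (cuty _ _ _ t₀ _ (by linarith) hs (by linarith) le_rfl (by linarith) (by linarith)
    le_rfl s2).2
  exact (cuty _ _ _ t₁ _ (by linarith) hs (by linarith) (by linarith) ht (by linarith)
    le_rfl s3).1

theorem hom_exists_sq {z : ℂ} (hz : z ∈ ({0, 1}ᶜ : Set ℂ)) :
    ∃ x y ρ : ℚ, SqAdm x y ρ ∧ z ∈ hsq x y ρ := by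
  simp only [mem_compl_iff, mem_insert_iff, mem_singleton_iff, not_or] at hz
  have a0 := norm_pos_iff.2 hz.1
  have a1 := norm_pos_iff.2 (sub_ne_zero.2 hz.2)
  obtain ⟨ρ, hρ, hρ'⟩ := exists_rat_btwn (show 0 < min ‖z‖ ‖z - 1‖ / 6 by positivity)
  obtain ⟨x, hx1, hx2⟩ := exists_rat_btwn (show z.re < z.re + ρ by linarith)
  obtain ⟨y, hy1, hy2⟩ := exists_rat_btwn (show z.im < z.im + ρ by linarith)
  have hn : ‖z - ⟨x, y⟩‖ ≤ 2 * ρ := by
    refine (Complex.norm_le_abs_re_add_abs_im _).trans ?_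
    simp only [Complex.sub_re, Complex.sub_im]
    rw [abs_of_neg (by linarith), abs_of_neg (by linarith)]
    linarith
  refine ⟨x, y, ρ, ⟨hρ, ?_, ?_⟩, ⟨by linarith, by linarith⟩, by linarith, by linarith⟩
  · linarith [min_le_left ‖z‖ ‖z - 1‖, norm_le_norm_add_norm_sub' z ⟨x, y⟩]
  · have := norm_le_norm_add_norm_sub' (z - 1) ((⟨x, y⟩ : ℂ) - 1)
    rw [sub_sub_sub_cancel_right] at this
    linarith [min_le_right ‖z‖ ‖z - 1‖]

/-- both halves are homogeneous near every point other than the marked points -/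
def LocHom (a b : ℝ) : Prop :=
  ∀ z ∈ ({0, 1}ᶜ : Set ℂ), ∃ x₀ x₁ y₀ y₁ : ℝ, z ∈ orect x₀ x₁ y₀ y₁ ∧
    N.Lin a (orect x₀ x₁ y₀ y₁) ∧ N.dual.Lin b (orect x₀ x₁ y₀ y₁)

theorem locHom_of_homog {s : Sys} (h : N.Real s) {a b : ℝ} (ha : 0 ≤ a) (hb : 0 ≤ b)
    (H : ∀ F : Fr, F.Adm → Homog a b (pull F s)) : N.LocHom a b := fun z hz => by
  obtain ⟨x, y, ρ, h1, h2⟩ := hom_exists_sq hz
  exact ⟨_, _, _, _, h2, (N.sqHom_of_hom h.1 fun F hF => (H F hF).1).lin ha h1,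
    (N.dual.sqHom_of_hom h.2 fun F hF => (H F hF).2).lin hb h1⟩

theorem hom_dual_dual : N.dual.dual = N := by
  cases N
  simp only [dual, inv_inv]
  rfl

theorem LocHom.dual {N : FNet} {a b : ℝ} (h : N.LocHom a b) : N.dual.LocHom b a := fun z hz => by
  obtain ⟨x₀, x₁, y₀, y₁, h1, h2, h3⟩ := h z hz
  exact ⟨x₀, x₁, y₀, y₁, h1, h3, by rwa [hom_dual_dual]⟩

end FNet

end Pool.Agent.QL
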