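import Pool.Agent.P.MP_7a6434d8_pr.QL.Hom.Rec
import Pool.Agent.P.MP_7a6434d8_pr.QL.Hom.Defs

/-! Homogeneous systems give the energy inputs of the walk side. -/

open MeasureTheory Set Filter Topology Metric
open scoped ENNReal

namespace Pool.Agent.QL

open Pool.Agent.LGD Pool.Agent.P.MP_7a6434d8_pr

theorem hom_tail_σ {n : ℕ} (q : Quad n) (e : Fin (4 * n)) :
    q.tail ((toFMap q).σ e) = q.tail e :=
  (hom_tail_eq q).2 (Equiv.Perm.sameCycle_apply_left.2 (.refl _ _))

theorem hom_inv_out {n : ℕ} (q : Quad n) {f : Fin (4 * n) → ℝ} (hf : Inv (toFMap q).σ f)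
    (e : Fin (4 * n)) : f (Quotient.out (q.tail e)) = f e := by
  exact (hf.np_cyc ((hom_tail_eq q).1 (tail_out q (q.tail e)))).symm

theorem hom_cross {n : ℕ} (q : Quad n) (S : Set q.Vertex) {x y : q.Vertex} (hx : x ∈ S)
    (h : Relation.ReflTransGen (fun u v => v ∈ S ∧ ∃ e, q.tail e = u ∧ q.head e = v) x y)
    (c : Fin (4 * n)) (hc : q.tail c = x) : y ∈ S ∧ ∀ e, q.tail e = y →
      Relation.ReflTransGen (fun c e => (e = q.α c ∧ q.tail c ∈ S ∧ q.tail (q.α c) ∈ S) ∨
        (toFMap q).σ.SameCycle c e) c e ∧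
      Relation.ReflTransGen (fun c e => (e = q.α c ∧ q.tail c ∈ S ∧ q.tail (q.α c) ∈ S) ∨
        (toFMap q).σ.SameCycle c e) e c := by
  induction h with
  | refl => exact ⟨hx, fun e he => ⟨.single (.inr ((hom_tail_eq q).1 (hc.trans he.symm))),
      .single (.inr ((hom_tail_eq q).1 (he.trans hc.symm)))⟩⟩
  | tail _ h ih =>
    obtain ⟨h1, b, rfl, rfl⟩ := h
    refine ⟨h1, fun e he => ⟨((ih.2 b rfl).1.tail (.inl ⟨rfl, ih.1, h1⟩)).tail
      (.inr ((hom_tail_eq q).1 he.symm)), .head (b := q.α b) (.inr ((hom_tail_eq q).1 he))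
      (.head (.inl ⟨(q.α_α b).symm, h1, by rw [q.α_α]; exact ih.1⟩) (ih.2 b rfl).2)⟩⟩

namespace Net

variable {d : Sph → Sph → ℝ} {μ : Measure ℂ} (N : Net) (hd : IsMet d) (hG : N.Geo d μ)
  (p : ∀ m, (N.q m).Vertex → ℂ) (hp : ∀ m x, N.p m x = p m x) (κ : ℕ → ℝ) (hκ : ∀ m, 0 < κ m)

theorem toF_en (m : ℕ) (u v : (N.q m).Vertex → ℝ) :
    (N.toF hd hG p hp κ hκ).en m univ (fun e => u ((N.q m).tail e))
      (fun e => v ((N.q m).tail e)) = κ m * dir (N.q m) u v := by
  simp only [FNet.en, FNet.In, mem_univ, and_self, if_true]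
  rfl

theorem toF_two (m : ℕ) (g : (N.q m).Vertex → ℝ) {A B : Set (N.q m).Vertex} {A' B' : Set ℂ}
    (hA : ∀ x ∈ A, p m x ∈ A') (hB : ∀ x ∈ B, p m x ∈ B')
    (h1 : Cross (N.q m) {x | 1 ≤ g x} A B) (h0 : Cross (N.q m) {x | g x ≤ 0} A B) :
    (N.toF hd hG p hp κ hκ).Two m (fun e => g ((N.q m).tail e)) A' B' ∧
    (N.toF hd hG p hp κ hκ).Two m (fun e => g ((N.q m).tail e)) B' A' := by
  obtain ⟨x, x1, y, y1, x2, h1⟩ := h1
  obtain ⟨x', x1', y', y1', x2', h0⟩ := h0
  have k1 := (hom_cross _ _ x2 h1 _ (tail_out _ x)).2 _ (tail_out _ y)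
  have k0 := (hom_cross _ _ x2' h0 _ (tail_out _ x')).2 _ (tail_out _ y')
  have hi : Inv (toFMap (N.q m)).σ fun e => g ((N.q m).tail e) := fun e =>
    congrArg g (hom_tail_σ _ e)
  have o : ∀ {S : Set ℂ} {x : (N.q m).Vertex}, p m x ∈ S →
      p m ((N.q m).tail (Quotient.out x)) ∈ S := fun h => by rwa [tail_out]
  exact ⟨⟨hi, ⟨_, _, o (hA x x1), o (hB y y1), k1.1⟩, _, _, o (hA x' x1'), o (hB y' y1'), k0.1⟩,
    hi, ⟨_, _, o (hB y y1), o (hA x x1), k1.2⟩, _, _, o (hB y' y1'), o (hA x' x1'), k0.2⟩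

theorem en_of_locHom {a b : ℝ} (ha : 0 < a) (hb : 0 ≤ b)
    (h : (N.toF hd hG p hp κ hκ).LocHom a b) (hs : ∀ m, N.a m = 2 * N.n m * κ m / a) :
    N.En d := by
  set F := N.toF hd hG p hp κ hκ
  have hE : ∀ m (u v : (N.q m).Vertex → ℝ), F.en m univ (fun e => u ((N.q m).tail e))
      (fun e => v ((N.q m).tail e)) = 2 * a * N.E m u v := fun m u v => by
    have : (0 : ℝ) < N.n m := by exact_mod_cast n_pos (N.q m)
    refine (N.toF_en hd hG p hp κ hκ m u v).trans ?_
    rw [E, form, hs]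
    field_simp
    ring
  refine ⟨tendsto_atTop.2 fun T => ?_, fun φ hφ => ?_, fun z R C hR => ?_⟩
  · obtain ⟨x₀, x₁, y₀, y₁, ⟨⟨b1, b2⟩, b3, b4⟩, h2, -⟩ := h 2 (by norm_num)
    have e := h2 1 (by simp) ((x₀ + (2 : ℂ).re) / 2) ((x₁ + (2 : ℂ).re) / 2)
      ((y₀ + (2 : ℂ).im) / 2) ((y₁ + (2 : ℂ).im) / 2) (by linarith) (by linarith)
      fun w ⟨⟨c1, c2⟩, c3, c4⟩ => ⟨⟨by linarith, by linarith⟩, by linarith, by linarith⟩
    set S := orect ((x₀ + (2 : ℂ).re) / 2) ((x₁ + (2 : ℂ).re) / 2)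
      ((y₀ + (2 : ℂ).im) / 2) ((y₁ + (2 : ℂ).im) / 2)
    set A := a * ‖(1 : ℂ)‖ ^ 2 * (((x₁ + (2 : ℂ).re) / 2 - (x₀ + (2 : ℂ).re) / 2) *
      ((y₁ + (2 : ℂ).im) / 2 - (y₀ + (2 : ℂ).im) / 2))
    have hA : 0 < A := mul_pos (by simpa) (mul_pos (by linarith) (by linarith))
    obtain ⟨η, hη, h3⟩ := (F.le_F_iff _ _ _).1 e.ge (A / 2) (half_pos hA)
    obtain ⟨R, hR⟩ := ((hom_compact _ _ _ _).isBounded.subset (hom_oc _ _ _ _) :
      Bornology.IsBounded S).subset_closedBall 0
    have hc : 0 < A / (2 * a * (|T| + 1)) := by positivity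
    filter_upwards [h3, F.mesh R _ (lt_min one_pos hc)] with m h4 h5
    set θ := min 1 (A / (2 * a * (|T| + 1)))
    have t0 : 0 < θ := lt_min one_pos hc
    have h6 := h4 (fun e => lin 1 (F.p m e)) ⟨fun e => congrArg (fun x => lin 1 (p m x))
      (hom_tail_σ _ e), fun e _ => by simpa using hη.le⟩
    have h7 : F.en m S (fun e => lin 1 (F.p m e)) (fun e => lin 1 (F.p m e)) ≤
        κ m * (1 / 2 * ((4 * N.n m : ℕ) * (θ * θ))) := by
      refine mul_le_mul_of_nonneg_left (mul_le_mul_of_nonneg_left ?_ (by norm_num)) (hκ m).le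
      refine (Finset.sum_le_card_nsmul _ _ (θ * θ) fun e _ => ?_).trans_eq ?_
      · split_ifs with he
        · have := (Complex.abs_re_le_norm _).trans
            (h5 e _ (mem_closedBall_zero_iff.1 (hR he.1)) (.inl rfl))
          refine abs_le_iff_mul_self_le.1 ?_
          rw [abs_of_pos t0]
          simpa [FNet.dd, lin] using this
        · positivity
      · rw [nsmul_eq_mul, Finset.card_univ]
        exact congrArg (fun k : ℕ => (k : ℝ) * (θ * θ)) (Fintype.card_fin _)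
    have h8 : θ * θ ≤ A / (2 * a * (|T| + 1)) :=
      (mul_le_of_le_one_left t0.le (min_le_left _ _)).trans (min_le_right _ _)
    have h9 : κ m * (1 / 2 * ((4 * N.n m : ℕ) * (θ * θ))) = a * N.a m * (θ * θ) := by
      rw [hs]
      push_cast
      field_simp
      ring
    have n0 : 0 ≤ N.a m := by
      have := hκ m
      rw [hs]
      positivity
    have h10 : A / 2 ≤ a * N.a m * (A / (2 * a * (|T| + 1))) := by
      have := mul_le_mul_of_nonneg_left h8 (mul_nonneg ha.le n0)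
      linarith
    have h11 : a * N.a m * (A / (2 * a * (|T| + 1))) = A / 2 * (N.a m / (|T| + 1)) := by
      field_simp
    rw [h11, le_mul_iff_one_le_right (half_pos hA), one_le_div (by positivity)] at h10
    linarith [le_abs_self T]
  · obtain ⟨u, u1, -, u3⟩ := h.recT ha.le hb φ hφ
    refine ⟨fun m x => u m (Quotient.out x), fun ε hε => ?_, fun v g C hv hC => ?_⟩
    · filter_upwards [u1 ε hε] with m hm x
      have := hm.2 (Quotient.out x) trivial
      have e : F.p m (Quotient.out x) = p m x := congrArg (p m) (tail_out _ x)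
      rw [e] at this
      rw [hp]
      exact this
    · have k := u3 (fun m e => v m ((N.q m).tail e)) (fun z => g z) (2 * a * C) (cont_coe g)
        (fun η hη => (hv η hη).mono fun m hm => ⟨fun e => congrArg (v m) (hom_tail_σ _ e),
          fun e _ => by
            have := hm ((N.q m).tail e)
            rwa [hp] at this⟩)
        (hC.mono fun m hm => (hE m _ _).trans_le (mul_le_mul_of_nonneg_left hm (by positivity)))
      have k2 := k.const_mul (1 / (2 * a))
      rw [← mul_assoc, show 1 / (2 * a) * -a = -(1 / 2) by field_simp] at k2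
      refine k2.congr' ?_
      filter_upwards [u1 1 one_pos] with m hm
      have e : u m = fun e => (fun x : (N.q m).Vertex => u m (Quotient.out x))
          ((N.q m).tail e) := funext fun e => (hom_inv_out _ hm.1 e).symm
      have e2 := (congrArg (fun w => F.en m univ w fun e => v m ((N.q m).tail e)) e).trans
        (hE m (fun x => u m (Quotient.out x)) (v m))
      refine (congrArg (fun t => 1 / (2 * a) * t) e2).trans ?_
      field_simp
  · have fin : ∀ m (g : (N.q m).Vertex → ℝ), 2 * a * C ≤ F.en m univ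
        (fun e => g ((N.q m).tail e)) (fun e => g ((N.q m).tail e)) → C ≤ N.E m g g :=
      fun m g h => le_of_mul_le_mul_left (h.trans_eq (hE m g g)) (by positivity)
    induction z using OnePoint.rec with
    | infty =>
      have o : {s : Sph | d OnePoint.infty s < R} ∈ 𝓝 (OnePoint.infty : Sph) :=
        (isOpen_lt (hd.cont_right _) continuous_const).mem_nhds (by simpa [hd.self])
      have o2 := OnePoint.tendsto_coe_infty o
      rw [coclosedCompact_eq_cocompact, mem_map, mem_cocompact] at o2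
      obtain ⟨K, k1, k2⟩ := o2
      obtain ⟨R₀, k3⟩ := k1.isBounded.subset_ball 0
      obtain ⟨R', k4⟩ := h.sepInf ha.le hb R₀ (2 * a * C)
      obtain ⟨r, hr, k5⟩ := hd.ball_sub (z := OnePoint.infty)
        (((isCompact_closedBall (0 : ℂ) R').image
          OnePoint.continuous_coe).isClosed.isOpen_compl.mem_nhds OnePoint.infty_notMem_image_coe)
      refine ⟨r, hr, k4.mono fun m hm g c1 c0 => fin m g (hm _
        (N.toF_two hd hG p hp κ hκ m g (fun x hx => ?_) (fun x hx => ?_) c1 c0).2)⟩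
      · exact fun hb => k5 _ hx ⟨_, ball_subset_closedBall hb, (hp m x).symm⟩
      · refine k3 (not_not.1 fun hn => ?_)
        have := k2 hn
        rw [mem_preimage, ← hp] at this
        exact not_le.2 (show d _ _ < R from this) hx
    | coe z =>
      obtain ⟨η, hη, k1⟩ := hd.of_eucl ‖z‖ (half_pos hR)
      obtain ⟨r', hr', k2⟩ := h.sepAt ha.le hb z η (2 * a * C) hη
      obtain ⟨r, hr, k3⟩ := hd.to_eucl ‖z‖ (half_pos hr')
      refine ⟨r, hr, k2.mono fun m hm g c1 c0 => fin m g ((hm _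
        (N.toF_two hd hG p hp κ hκ m g (fun x hx => ?_) (fun x hx => ?_) c1 c0).1).trans
          (F.en_mono m (subset_univ _) _))⟩
      · rw [mem_ofPred_eq, hp] at hx
        exact mem_ball_iff_norm.2 (by linarith [k3 z _ le_rfl hx.le])
      · rw [mem_ofPred_eq, hp] at hx
        intro hb
        linarith [k1 z _ le_rfl (mem_ball_iff_norm.1 hb).le]

/-- The theorem of block HOM. -/
theorem en_of_homog {s : Sys} (hs : (N.toF hd hG p hp κ hκ).Real s) {a b : ℝ} (ha : 0 < a)
    (hb : 0 ≤ b) (H : ∀ F : Fr, F.Adm → Homog a b (pull F s))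
    (hsp : ∀ m, N.a m = 2 * N.n m * κ m / a) : N.En d :=
  N.en_of_locHom hd hG p hp κ hκ ha hb (FNet.locHom_of_homog _ hs ha.le hb H) hsp

end Net

end Pool.Agent.QL
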