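import Pool.Agent.P.MP_7a6434d8_pr.QL.Hom.Lin
import Pool.Agent.P.MP_7a6434d8_pr.QL.NRec
import Pool.Agent.P.MP_7a6434d8_pr.QL.NLS
import Pool.Agent.P.MP_7a6434d8_pr.QL.NSep
import Pool.Agent.P.MP_7a6434d8_pr.QL.W.Lap

/-! Global recovery sequences, cutoffs of annuli and separation. -/

open MeasureTheory Set Filter Topology Metric
open scoped ENNReal Manifold

namespace Pool.Agent.QL

open Pool.Agent.LGD

theorem hom_bump {s t : Set ℂ} (hs : IsClosed s) (ht : IsClosed t) (hd : Disjoint s t) :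
    ∃ f : ℂ → ℝ, ContDiff ℝ (⊤ : ℕ∞) f ∧ tsupport f ⊆ sᶜ ∧ tsupport (fun x => 1 - f x) ⊆ tᶜ := by
  obtain ⟨f, h0, h1, -⟩ :=
    exists_contMDiffMap_zero_one_nhds_of_isClosed (n := (⊤ : ℕ∞)) 𝓘(ℝ, ℂ) hs ht hd
  refine ⟨f, f.contMDiff.contDiff, fun x hx hs' => ?_, fun x hx ht' => ?_⟩
  · exact notMem_tsupport_iff_eventuallyEq.2 (h0.filter_mono (nhds_le_nhdsSet hs')) hx
  · refine notMem_tsupport_iff_eventuallyEq.2 ?_ hx
    filter_upwards [h1.filter_mono (nhds_le_nhdsSet ht')] with y hy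
    simp [hy]

namespace FNet

variable (N : FNet)

theorem hom_en_add (m : ℕ) (S : Set ℂ) (u v : (N.M m).D → ℝ) :
    N.en m S (fun d => u d + v d) (fun d => u d + v d) ≤
      2 * N.en m S u u + 2 * N.en m S v v := by
  rw [N.en_add_left, N.en_comm m S u, N.en_comm m S v, N.en_add_left, N.en_add_left,
    N.en_comm m S v u]
  have h1 := N.en_cs m S u v
  have h2 := N.en_nonneg m S u
  have h3 := N.en_nonneg m S v
  have : N.en m S u v ≤ (N.en m S u u + N.en m S v v) / 2 :=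
    (abs_le_of_sq_le_sq' (by nlinarith [sq_nonneg (N.en m S u u - N.en m S v v)])
      (by linarith)).2
  linarith

/-- `φ` has a recovery sequence -/
def HomRec (a : ℝ) (φ : ℂ → ℝ) : Prop :=
  ∃ u : ∀ m, (N.M m).D → ℝ, N.Conv u φ univ ∧
    (∃ C : ℝ, ∀ᶠ m in (N.U : Filter ℕ), N.en m univ (u m) (u m) ≤ C) ∧
    ∀ (v : ∀ m, (N.M m).D → ℝ) (g : ℂ → ℝ) (C : ℝ), Continuous g → N.Conv v g univ →
      (∀ᶠ m in (N.U : Filter ℕ), N.en m univ (v m) (v m) ≤ C) →
      Tendsto (fun m => N.en m univ (u m) (v m)) N.U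
        (𝓝 (-a * ∫ z, g z * Laplacian.laplacian φ z))

theorem HomRec.add {N : FNet} {a : ℝ} {φ χ : Test} (h : N.HomRec a φ) (h' : N.HomRec a χ) :
    N.HomRec a (fun x => φ x + χ x) := by
  obtain ⟨u, u1, ⟨C, u2⟩, u3⟩ := h
  obtain ⟨w, w1, ⟨D, w2⟩, w3⟩ := h'
  refine ⟨fun m d => u m d + w m d, fun η hη => ?_, ⟨2 * C + 2 * D, ?_⟩, fun v g E hg hv hE => ?_⟩
  · filter_upwards [u1 _ (half_pos hη), w1 _ (half_pos hη)] with m h1 h2
    refine ⟨fun d => by simp only [h1.1 d, h2.1 d], fun d hd => ?_⟩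
    have a1 := abs_le.1 (h1.2 d hd)
    have a2 := abs_le.1 (h2.2 d hd)
    exact abs_le.2 ⟨by linarith [a1.1, a2.1], by linarith [a1.2, a2.2]⟩
  · filter_upwards [u2, w2] with m h1 h2
    linarith [N.hom_en_add m univ (u m) (w m)]
  · have i : ∀ ψ : Test, Integrable fun z => g z * Laplacian.laplacian (ψ : ℂ → ℝ) z := fun ψ =>
      (hg.mul (lap_test_cont ψ)).integrable_of_hasCompactSupport (lap_test_compact ψ).mul_left
    have e : ∀ z, Laplacian.laplacian (fun x => φ x + χ x) z =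
        Laplacian.laplacian (φ : ℂ → ℝ) z + Laplacian.laplacian (χ : ℂ → ℝ) z := fun z =>
      (test_c2 φ).contDiffAt.laplacian_add (test_c2 χ).contDiffAt
    simp only [N.en_add_left, e, mul_add]
    rw [integral_add (i φ) (i χ), mul_add]
    exact (u3 v g E hg hv hE).add (w3 v g E hg hv hE)

theorem LocHom.recT {N : FNet} {a b : ℝ} (h : N.LocHom a b) (ha : 0 ≤ a) (hb : 0 ≤ b) (φ : Test)
    (hs : tsupport φ ⊆ {0, 1}ᶜ) : N.HomRec a φ := by
  have loc : ∀ z ∈ ({0, 1}ᶜ : Set ℂ), ∃ V, IsOpen V ∧ z ∈ V ∧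
      ∀ ψ : Test, tsupport ψ ⊆ V → N.HomRec a ψ := fun z hz => by
    obtain ⟨x₀, x₁, y₀, y₁, h1, h2, h3⟩ := h z hz
    refine ⟨_, hom_open _ _ _ _, h1, fun ψ hψ => ?_⟩
    obtain ⟨u, u1, u2, u3⟩ := N.recov ha (mul_nonneg (by norm_num) hb) h2 (N.ls_of_dual hb h3)
      ψ ψ.contDiff ψ.hasCompactSupport hψ
    exact ⟨u, u1, u2, fun v g C hg hv hC => u3 v g C hg
      (fun η hη => (hv η hη).mono fun m hm => ⟨hm.1, fun d _ => hm.2 d trivial⟩) hC⟩
  obtain ⟨V0, o0, -, r0⟩ := loc 2 (by norm_num)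
  have key : ∃ V, IsOpen V ∧ tsupport φ ⊆ V ∧ ∀ ψ : Test, tsupport ψ ⊆ V → N.HomRec a ψ := by
    refine IsCompact.induction_on (p := fun S => ∃ V, IsOpen V ∧ S ⊆ V ∧
      ∀ ψ : Test, tsupport ψ ⊆ V → N.HomRec a ψ) φ.hasCompactSupport ⟨V0, o0, empty_subset _, r0⟩
      (fun S T hST ⟨V, h1, h2, h3⟩ => ⟨V, h1, hST.trans h2, h3⟩) ?_ fun z hz => ?_
    · rintro S T ⟨V, v1, v2, v3⟩ ⟨W, w1, w2, w3⟩
      refine ⟨V ∪ W, v1.union w1, union_subset_union v2 w2, fun ψ hψ => ?_⟩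
      obtain ⟨K₁, K₂, k1, -, k3, k4, k5⟩ :=
        IsCompact.binary_compact_cover ψ.hasCompactSupport v1 w1 hψ
      obtain ⟨f, f1, f2, f3⟩ := hom_bump v1.isClosed_compl k1.isClosed
        (disjoint_compl_left_iff_subset.2 k3)
      obtain ⟨χ₁, e1⟩ := exists_test_mul ψ f1
      obtain ⟨χ₂, e2⟩ := exists_test_mul ψ (contDiff_const.sub f1 : ContDiff ℝ _ fun x => 1 - f x)
      have r1 := v3 χ₁ (by
        rw [e1, ← compl_compl V]
        exact (tsupport_mul_subset_right (f := ψ) (g := f)).trans f2)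
      have r2 := w3 χ₂ (by
        rw [e2]
        intro x hx
        have a1 := tsupport_mul_subset_left (f := ψ) (g := fun x => 1 - f x) hx
        have a2 := f3 (tsupport_mul_subset_right (f := ψ) (g := fun x => 1 - f x) hx)
        rw [k5] at a1
        exact k4 (a1.resolve_left a2))
      have e : (ψ : ℂ → ℝ) = fun x => χ₁ x + χ₂ x := by
        rw [e1, e2]
        ext x
        ring
      rw [e]
      exact r1.add r2
    · obtain ⟨V, v1, v2, v3⟩ := loc z (hs hz)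
      exact ⟨V, mem_nhdsWithin_of_mem_nhds (v1.mem_nhds v2), V, v1, subset_rfl, v3⟩
  obtain ⟨V, -, v2, v3⟩ := key
  exact v3 φ v2

theorem hom_ring : ∃ ψ : Test, tsupport ψ ⊆ ball 0 4 \ closedBall 0 1 ∧
    ∀ x, 2 ≤ ‖x‖ → ‖x‖ ≤ 3 → ψ x = 1 := by
  obtain ⟨f, f1, f2, f3⟩ := hom_bump (s := (ball (0 : ℂ) 4 \ closedBall 0 1)ᶜ)
    (t := closedBall 0 3 \ ball 0 2) (isOpen_ball.sdiff isClosed_closedBall).isClosed_compl
    (isClosed_closedBall.sdiff isOpen_ball) (disjoint_compl_left_iff_subset.2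
      (sdiff_subset_sdiff (closedBall_subset_ball (by norm_num))
        (closedBall_subset_ball (by norm_num))))
  rw [compl_compl] at f2
  refine ⟨mkTest f f1 ((isCompact_closedBall 0 4).of_isClosed_subset (isClosed_tsupport _)
    (f2.trans (sdiff_subset.trans ball_subset_closedBall))), f2, fun x h1 h2 => ?_⟩
  have : x ∉ tsupport fun x => 1 - f x := fun hx =>
    f3 hx ⟨mem_closedBall_zero_iff.2 h2, fun h => absurd (mem_ball_zero_iff.1 h) (not_lt.2 h1)⟩
  have := image_eq_zero_of_notMem_tsupport this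
  rw [mkTest_coe]
  linarith

/-- cutoffs of annuli with a scale invariant energy -/
theorem LocHom.cut {N : FNet} {a b : ℝ} (h : N.LocHom a b) (ha : 0 ≤ a) (hb : 0 ≤ b) :
    ∃ M > 0, ∀ (z : ℂ) (r : ℝ), 0 < r → ball z (4 * r) \ closedBall z r ⊆ {0, 1}ᶜ →
      N.Cut (closedBall z (2 * r)) (ball z (5 * r)) M := by
  obtain ⟨ψ, s1, s2⟩ := hom_ring
  set E := -a * ∫ x, ψ x * Laplacian.laplacian (ψ : ℂ → ℝ) x with hE
  refine ⟨4 * (|E| + 1), by positivity, fun z r hr hz => ?_⟩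
  obtain ⟨χ, e⟩ := exists_test_affine ψ (inv_ne_zero hr.ne') (-(r⁻¹ • z))
  have hn : ∀ x : ℂ, ‖r⁻¹ • x + -(r⁻¹ • z)‖ = ‖x - z‖ / r := fun x => by
    rw [← sub_eq_add_neg, ← smul_sub, norm_smul, Real.norm_of_nonneg (inv_pos.2 hr).le,
      inv_mul_eq_div]
  have t1 : tsupport χ ⊆ ball z (4 * r) \ closedBall z r := by
    have : tsupport χ ⊆ (fun x => r⁻¹ • x + -(r⁻¹ • z)) ⁻¹' tsupport ψ := by
      rw [e]
      exact closure_minimal (fun x hx => subset_tsupport _ hx)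
        ((isClosed_tsupport _).preimage (by fun_prop))
    intro x hx
    obtain ⟨a1, a2⟩ := s1 (this hx)
    rw [mem_closedBall_zero_iff, hn, div_le_one hr] at a2
    rw [mem_ball_zero_iff, hn, div_lt_iff₀ hr] at a1
    exact ⟨mem_ball_iff_norm.2 a1, fun h => a2 (mem_closedBall_iff_norm.1 h)⟩
  have t2 : ∀ x, 2 * r ≤ ‖x - z‖ → ‖x - z‖ ≤ 3 * r → χ x = 1 := fun x h1 h2 => by
    rw [e]
    exact s2 _ (by rwa [hn, le_div_iff₀ hr]) (by rwa [hn, div_le_iff₀ hr])
  have t3 : -a * ∫ x, χ x * Laplacian.laplacian (χ : ℂ → ℝ) x = E := by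
    rw [e, hE]
    simp only [lap_affine (test_c2 ψ)]
    rw [Measure.integral_comp_inv_smul_of_nonneg volume (fun y => ψ (y + -(r⁻¹ • z)) *
      (r⁻¹ ^ 2 * Laplacian.laplacian (ψ : ℂ → ℝ) (y + -(r⁻¹ • z)))) hr.le,
      integral_add_right_eq_self (fun y => ψ y * (r⁻¹ ^ 2 * Laplacian.laplacian (ψ : ℂ → ℝ) y)),
      Complex.finrank_real_complex, smul_eq_mul, ← integral_const_mul (r ^ 2)]
    congr 2
    ext y
    field_simp
  obtain ⟨u, u1, ⟨C, u2⟩, u3⟩ := h.recT ha hb χ (t1.trans hz)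
  have u4 := u3 u χ C χ.continuous u1 u2
  rw [t3] at u4
  filter_upwards [u1 (1 / 4) (by norm_num), N.mesh (‖z‖ + 3 * r) (r / 4) (by positivity),
    u4.eventually (eventually_le_nhds (show E < |E| + 1 by linarith [le_abs_self E]))]
    with m ⟨i1, i2⟩ hm hen
  classical
  let P : (N.M m).D → Prop := fun d => ∃ c, (N.M m).σ.SameCycle c d ∧ ‖N.p m c - z‖ ≤ 5 / 2 * r
  have nz : ∀ x : ℂ, ‖x - z‖ ≤ 3 * r → ‖x‖ ≤ ‖z‖ + 3 * r := fun x hx => by
    linarith [norm_le_norm_add_norm_sub' x z]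
  have tri : ∀ x y : ℂ, ‖x - z‖ ≤ ‖y - z‖ + ‖x - y‖ := fun x y => by
    have := norm_add_le (y - z) (x - y)
    rwa [show y - z + (x - y) = x - z by ring] at this
  have p1 : ∀ d, P d → ‖N.p m d - z‖ ≤ 11 / 4 * r := fun d ⟨c, c1, c2⟩ => by
    linarith [tri (N.p m d) (N.p m c), hm c d (nz _ (by linarith)) (.inr (.inr c1))]
  have p2 : ∀ d, ¬P d → 5 / 2 * r < ‖N.p m d - z‖ := fun d hd =>
    not_le.1 fun h => hd ⟨d, .refl _ _, h⟩
  have p3 : ∀ d, P d → ¬P ((N.M m).α d) → max 0 (min 1 (2 * u m ((N.M m).α d) + -(1 / 2))) = 1 :=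
    fun d h1 h2 => by
    have a1 := p1 d h1
    have a2 := p2 _ h2
    have a3 := hm d _ (nz _ (by linarith)) (.inl rfl)
    have a4 := abs_le.1 (i2 ((N.M m).α d) trivial)
    rw [t2 _ (by linarith) (by linarith [tri (N.p m ((N.M m).α d)) (N.p m d)])] at a4
    rw [min_eq_left (by linarith [a4.1]), max_eq_right zero_le_one]
  refine ⟨fun d => if P d then 1 else max 0 (min 1 (2 * u m d + -(1 / 2))), fun d => ?_,
    fun d => ?_, fun d hd => ?_, fun d hd => ?_, ?_⟩
  · have : P ((N.M m).σ d) ↔ P d := by simp only [P, Equiv.Perm.sameCycle_apply_right]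
    simp only [this, i1 d]
  · simp only
    split_ifs
    · exact ⟨zero_le_one, le_rfl⟩
    · exact ⟨le_max_left _ _, max_le zero_le_one (min_le_left _ _)⟩
  · exact if_pos ⟨d, .refl _ _, by linarith [mem_closedBall_iff_norm.1 hd]⟩
  · have a1 : 5 * r ≤ ‖N.p m d - z‖ := not_lt.1 fun h => hd (mem_ball_iff_norm.2 h)
    have a2 : χ (N.p m d) = 0 := image_eq_zero_of_notMem_tsupport fun h => by
      linarith [mem_ball_iff_norm.1 (t1 h).1]
    have a4 := abs_le.1 (i2 d trivial)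
    rw [a2] at a4
    refine (if_neg fun h => by linarith [p1 d h]).trans ?_
    exact max_eq_left ((min_le_right _ _).trans (by linarith [a4.2]))
  · refine (N.en_le_of_dd m univ (v := fun d => 2 * u m d + -(1 / 2)) fun d _ => ?_).trans ?_
    · simp only [dd]
      split_ifs with h1 h2 h2
      · simp
      · have := p3 _ h1 (by rwa [(N.M m).α_α])
        rw [(N.M m).α_α] at this
        rw [this, sub_self, abs_zero]
        exact abs_nonneg _
      · rw [p3 _ h2 h1, sub_self, abs_zero]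
        exact abs_nonneg _
      · exact sep_clamp _ _
    · rw [N.en_affine_left, N.en_comm, N.en_affine_left]
      linarith

theorem LocHom.sepAt {N : FNet} {a b : ℝ} (h : N.LocHom a b) (ha : 0 ≤ a) (hb : 0 ≤ b) (z : ℂ) :
    N.SepAt z := by
  obtain ⟨M, hM, hc⟩ := h.dual.cut hb ha
  refine N.sepAt_of_cuts z (K := 5 / 2) (by norm_num) hM (Eventually.frequently ?_)
  have key : ∀ w : ℂ, ∀ᶠ r in 𝓝[>] (0 : ℝ), w ∉ ball z (4 * (r / 2)) \ closedBall z (r / 2) := by
    intro w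
    by_cases hw : w = z
    · filter_upwards [self_mem_nhdsWithin] with r hr hh
      exact hh.2 (hw ▸ mem_closedBall_self (half_pos hr).le)
    · filter_upwards [Ioo_mem_nhdsGT (half_pos (dist_pos.2 hw))] with r hr hh
      linarith [mem_ball.1 hh.1, hr.2]
  filter_upwards [key 0, key 1, self_mem_nhdsWithin] with r h0 h1 hr
  have := hc z (r / 2) (half_pos hr) (by
    rintro w hw (rfl | rfl)
    exacts [h0 hw, h1 hw])
  rwa [show 2 * (r / 2) = r by ring, show 5 * (r / 2) = 5 / 2 * r by ring] at this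

theorem LocHom.sepInf {N : FNet} {a b : ℝ} (h : N.LocHom a b) (ha : 0 ≤ a) (hb : 0 ≤ b)
    (R C : ℝ) : ∃ R', ∀ᶠ m in (N.U : Filter ℕ), ∀ g : (N.M m).D → ℝ,
      N.Two m g (ball 0 R) (ball 0 R')ᶜ → C ≤ N.en m univ g g := by
  obtain ⟨M, hM, hc⟩ := h.dual.cut hb ha
  have key : ∀ n : ℕ, ∃ r, max R 1 ≤ r ∧ ∀ᶠ m in (N.U : Filter ℕ), ∀ g : (N.M m).D → ℝ,
      N.Two m g (ball 0 R) (ball 0 r)ᶜ → n * (1 / (4 * M)) ≤ N.en m (ball 0 r) g g := by
    intro n
    induction n with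
    | zero =>
      exact ⟨_, le_rfl, Eventually.of_forall fun m g _ => by simpa using N.en_nonneg m _ g⟩
    | succ n ih =>
      obtain ⟨r, hr, hev⟩ := ih
      obtain ⟨r1, r2⟩ := max_le_iff.1 hr
      have c := N.sep_of_cut 0 (r := 2 * r) (R := 5 * r) (by linarith) (by linarith) hM
        (hc 0 r (by linarith) (by
          rintro w hw (rfl | rfl)
          · exact hw.2 (mem_closedBall_self (by linarith))
          · exact hw.2 (by simpa using r2)))
      rw [show 2 * r / 2 = r by ring] at c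
      refine ⟨2 * (5 * r), by linarith, ?_⟩
      filter_upwards [hev, c] with m h1 h2 g hg
      have h3 := h1 g (N.sep_two_mono hg subset_rfl
        (compl_subset_compl.2 (ball_subset_ball (by linarith))))
      have h4 := h2 g (N.sep_two_mono hg (ball_subset_ball r1) subset_rfl)
      have hd : Disjoint (ball (0 : ℂ) r) (ball 0 (2 * (5 * r)) \ closedBall 0 r) :=
        disjoint_left.2 fun x hx hx' => hx'.2 (ball_subset_closedBall hx)
      have h5 := N.en_sum_le m (Finset.univ : Finset Bool)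
        (fun b => if b then ball 0 r else ball 0 (2 * (5 * r)) \ closedBall 0 r)
        (ball 0 (2 * (5 * r))) (by
          rintro (_ | _) _
          · exact sdiff_subset
          · exact ball_subset_ball (by linarith)) (by
          rintro (_ | _) _ (_ | _) _ hne
          · exact absurd rfl hne
          · exact hd.symm
          · exact hd
          · exact absurd rfl hne) g
      simp only [Fintype.sum_bool, if_true, Bool.false_eq_true, if_false] at h5
      push_cast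
      linarith
  obtain ⟨n, hn⟩ := exists_nat_ge (C * (4 * M))
  obtain ⟨r, -, hev⟩ := key n
  refine ⟨r, hev.mono fun m hm g hg => le_trans ?_ ((hm g hg).trans (N.en_mono m (subset_univ _) g))⟩
  rw [mul_one_div, le_div_iff₀ (by positivity)]
  exact hn

end FNet

end Pool.Agent.QL
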